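import Mathlib
import Pool.Agent.Helper44.TOT.Defs

/-!
# TOT-A2: admissibility of the sets `NS x σ` for chains of length at least one
-/

set_option autoImplicit false

namespace Pool.Agent.Helper67.TOT

open Pool.Agent.Helper44.TOT Filter

noncomputable section

/-- conditions satisfied by all large `x` -/
structure Big (A x : ℕ) : Prop where
  x1 : (1 : ℝ) ≤ x
  s2 : 2 ≤ ll x
  f1 : (ll x) ^ A + 2 ≤ (x : ℝ) ^ ((99 : ℝ) / 100) / 4
  f2 : (x : ℝ) ^ ((1 : ℝ) / 20) + 1 ≤ (x : ℝ) ^ ((9 : ℝ) / 100)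
  f3 : (x : ℝ) ^ ((1 : ℝ) / 60) ≤ (x : ℝ) ^ ((99 : ℝ) / 100) / 4
  f4 : (x : ℝ) ^ ((1 : ℝ) / 5) ≤ (x : ℝ) ^ ((34 : ℝ) / 100) / 4

theorem ev_rpow (p q K : ℝ) (h : p < q) :
    ∀ᶠ x : ℕ in atTop, (x : ℝ) ^ p * K ≤ (x : ℝ) ^ q := by
  have h1 : Tendsto (fun x : ℕ => (x : ℝ) ^ (q - p)) atTop atTop :=
    (tendsto_rpow_atTop (by linarith)).comp tendsto_natCast_atTop_atTop
  filter_upwards [h1.eventually_ge_atTop K, eventually_ge_atTop 1] with x hx hx1
  have hx0 : (0 : ℝ) < x := by exact_mod_cast hx1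
  have h2 : (x : ℝ) ^ q = (x : ℝ) ^ p * (x : ℝ) ^ (q - p) := by
    rw [← Real.rpow_add hx0]; congr 1; ring
  rw [h2]
  exact mul_le_mul_of_nonneg_left hx (Real.rpow_nonneg hx0.le _)

theorem exists_big (A : ℕ) : ∃ X0 : ℕ, ∀ x : ℕ, X0 ≤ x → Big A x := by
  have h1 : ∀ᶠ x : ℕ in atTop, 2 ≤ ll x :=
    (Real.tendsto_log_atTop.comp
      (Real.tendsto_log_atTop.comp tendsto_natCast_atTop_atTop)).eventually_ge_atTop 2
  have h2 : ∀ᶠ x : ℕ in atTop, (Real.log x) ^ A ≤ (x : ℝ) ^ ((1 : ℝ) / 2) := by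
    have h3 := (isLittleO_log_rpow_rpow_atTop (A : ℝ) (by norm_num : (0 : ℝ) < 1 / 2)).bound
      (zero_lt_one' ℝ)
    have h4 := tendsto_natCast_atTop_atTop (R := ℝ) |>.eventually h3
    filter_upwards [h4, eventually_ge_atTop 1] with x hx hx1
    have hx0 : (1 : ℝ) ≤ x := by exact_mod_cast hx1
    rw [Real.rpow_natCast, one_mul] at hx
    exact (le_abs_self _).trans (hx.trans (le_of_eq
      (abs_of_nonneg (Real.rpow_nonneg (by linarith) _))))
  have h := h1.and (h2.and ((eventually_ge_atTop 1).and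
    ((ev_rpow (1 / 2) (99 / 100) 12 (by norm_num)).and
      ((ev_rpow (1 / 20) (9 / 100) 2 (by norm_num)).and
        ((ev_rpow (1 / 60) (99 / 100) 4 (by norm_num)).and
          (ev_rpow (1 / 5) (34 / 100) 4 (by norm_num)))))))
  obtain ⟨X0, hX0⟩ := eventually_atTop.mp h
  refine ⟨X0, fun x hx => ?_⟩
  obtain ⟨e1, e2, e3, e4, e5, e6, e7⟩ := hX0 x hx
  have hx1 : (1 : ℝ) ≤ x := by exact_mod_cast e3
  have hp : ∀ p : ℝ, 0 ≤ p → (1 : ℝ) ≤ (x : ℝ) ^ p := fun p hp => Real.one_le_rpow hx1 hp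
  refine ⟨hx1, e1, ?_, ?_, ?_, ?_⟩
  · have h3 : ll x ≤ Real.log x := Real.log_le_self (Real.log_nonneg hx1)
    have h4 : (ll x) ^ A ≤ (Real.log x) ^ A := pow_le_pow_left₀ (by linarith) h3 A
    have h5 := hp (1 / 2) (by norm_num)
    linarith
  · have := hp (1 / 20) (by norm_num)
    linarith
  · linarith
  · linarith

theorem one_le_prod : ∀ σ : List ℕ, (∀ m ∈ σ, 1 ≤ m) → 1 ≤ σ.prod
  | [], _ => by simp
  | m :: σ, h => by
    rw [List.prod_cons]
    exact Nat.mul_le_mul (h m (by simp)) (one_le_prod σ fun k hk => h k (by simp [hk]))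

theorem mem_tails_drop (σ : List ℕ) (i : ℕ) : σ.drop i ∈ σ.tails :=
  (List.mem_tails _ _).mpr (List.drop_suffix i σ)

theorem drop_lt (hCA : ChainAlg) {σ : List ℕ} (hσ : ∀ m ∈ σ, 1 ≤ m) {i j : ℕ} (hij : i < j)
    (hj : j ≤ σ.length) :
    up (σ.drop j) 0 * (σ.drop i).prod < up (σ.drop i) 0 * (σ.drop j).prod ∧
      (σ.drop j).prod + up (σ.drop j) 0 < (σ.drop i).prod + up (σ.drop i) 0 ∧
      (σ.drop j).prod ≤ (σ.drop i).prod :=
  hCA.2.2.1 σ _ _ hσ (mem_tails_drop σ j) (mem_tails_drop σ i)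
    (by rw [List.length_drop, List.length_drop]; omega)

theorem drop_ge {σ : List ℕ} (hσ : ∀ m ∈ σ, 1 ≤ m) (i : ℕ) : ∀ m ∈ σ.drop i, 1 ≤ m :=
  fun m hm => hσ m (List.mem_of_mem_drop hm)

theorem drop_prod_le (hCA : ChainAlg) {σ : List ℕ} (hσ : ∀ m ∈ σ, 1 ≤ m) {i : ℕ}
    (hi : i ≤ σ.length) : (σ.drop i).prod ≤ σ.prod := by
  rcases Nat.eq_zero_or_pos i with rfl | h
  · simp
  · have := (drop_lt hCA hσ h hi).2.2
    simpa using this

/-- the forms -/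
def forms (σ : List ℕ) (d : ℕ) : Finset (ℕ × ℕ) :=
  (Finset.range (σ.length + 1)).image
    (fun i => ((σ.drop i).prod * d, (σ.drop i).prod + up (σ.drop i) 0))

theorem forms_card (hCA : ChainAlg) {σ : List ℕ} (hσ : ∀ m ∈ σ, 1 ≤ m) (d : ℕ) :
    (forms σ d).card = σ.length + 1 := by
  unfold forms
  rw [Finset.card_image_of_injOn, Finset.card_range]
  intro i hi j hj hij
  simp only [Finset.coe_range, Set.mem_Iio] at hi hj
  simp only [Prod.mk.injEq] at hij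
  rcases lt_trichotomy i j with h | h | h
  · have := (drop_lt hCA hσ h (by omega)).2.1
    omega
  · exact h
  · have := (drop_lt hCA hσ h (by omega)).2.1
    omega

theorem forms_ne (hCA : ChainAlg) {σ : List ℕ} (hσ : ∀ m ∈ σ, 1 ≤ m) {d : ℕ} (hd : 1 ≤ d) :
    ∀ f ∈ forms σ d, ∀ g ∈ forms σ d, f ≠ g → f.1 * g.2 ≠ g.1 * f.2 := by
  have key : ∀ i j : ℕ, i < j → j ≤ σ.length →
      (σ.drop i).prod * d * ((σ.drop j).prod + up (σ.drop j) 0) <
        (σ.drop j).prod * d * ((σ.drop i).prod + up (σ.drop i) 0) := by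
    intro i j hij hj
    have h1 := (drop_lt hCA hσ hij hj).1
    have h2 := Nat.mul_lt_mul_of_pos_left h1 (show 0 < d by omega)
    nlinarith
  intro f hf g hg hfg
  simp only [forms, Finset.mem_image, Finset.mem_range] at hf hg
  obtain ⟨i, hi, rfl⟩ := hf
  obtain ⟨j, hj, rfl⟩ := hg
  rcases lt_trichotomy i j with h | h | h
  · exact (key i j h (by omega)).ne
  · subst h; exact absurd rfl hfg
  · exact (key j i h (by omega)).ne'

/-- facts on the elements of `NS x σ` -/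
theorem mem_NS {x n : ℕ} {σ : List ℕ} (h : n ∈ NS x σ) :
    1 ≤ n ∧ n ≤ x ∧ CP σ (n + 1) ∧ x / 2 < up σ (n + 1) ∧ up σ (n + 1) ≤ x := by
  classical
  unfold NS at h
  rw [Finset.mem_filter, Finset.mem_Icc] at h
  exact ⟨h.1.1, h.1.2, h.2.1, h.2.2.1, h.2.2.2⟩

/-- basic inequalities -/
structure Basic (x : ℕ) (σ : List ℕ) : Prop where
  c1 : (1 : ℝ) ≤ (σ.prod : ℝ)
  Xge : (x : ℝ) ^ ((99 : ℝ) / 100) ≤ (x : ℝ) / σ.prod
  Xle : (x : ℝ) / σ.prod ≤ x

theorem basic {A x : ℕ} {σ : List ℕ} (hx : Big A x) (hσ : ∀ m ∈ σ, 1 ≤ m)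
    (hc : (σ.prod : ℝ) ≤ (x : ℝ) ^ ((1 : ℝ) / 100)) : Basic x σ := by
  have c1 : (1 : ℝ) ≤ (σ.prod : ℝ) := by exact_mod_cast one_le_prod σ hσ
  have hx0 : (0 : ℝ) < x := lt_of_lt_of_le one_pos hx.x1
  refine ⟨c1, ?_, div_le_self hx0.le c1⟩
  rw [le_div_iff₀ (by linarith)]
  calc (x : ℝ) ^ ((99 : ℝ) / 100) * σ.prod ≤ (x : ℝ) ^ ((99 : ℝ) / 100) * (x : ℝ) ^ ((1 : ℝ) / 100) :=
        mul_le_mul_of_nonneg_left hc (Real.rpow_nonneg hx0.le _)
    _ = x := by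
        rw [← Real.rpow_add hx0]
        norm_num

theorem rng {A x : ℕ} {σ : List ℕ} (hCA : ChainAlg) (hx : Big A x) (hσ : ∀ m ∈ σ, 1 ≤ m)
    (hc : (σ.prod : ℝ) ≤ (x : ℝ) ^ ((1 : ℝ) / 100)) (hl : (σ.length : ℝ) ≤ (ll x) ^ A) :
    ∀ n ∈ NS x σ, (x : ℝ) / σ.prod / 4 < n ∧ (n : ℝ) ≤ (x : ℝ) / σ.prod := by
  intro n hn
  obtain ⟨h1, h2, h3, h4, h5⟩ := mem_NS hn
  have hb := basic hx hσ hc
  have hc0 : (0 : ℝ) < σ.prod := by linarith [hb.c1]
  have e1 := hCA.1 σ (n + 1)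
  have e2 := hCA.2.1 σ hσ
  constructor
  · have e3 : x < 2 * up σ (n + 1) := by omega
    have e4 : (x : ℝ) < 2 * (σ.prod * ((n : ℝ) + 1) + σ.length * σ.prod) := by
      have : x < 2 * (σ.prod * (n + 1) + σ.length * σ.prod) := by omega
      exact_mod_cast this
    have e5 : (x : ℝ) / σ.prod < 2 * ((n : ℝ) + 1 + σ.length) := by
      rw [div_lt_iff₀ hc0]
      nlinarith
    have e6 := hx.f1
    have e7 := hb.Xge
    linarith
  · rw [le_div_iff₀ hc0]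
    have e3 : n * σ.prod ≤ x := by
      have : σ.prod * (n + 1) ≤ x := by omega
      nlinarith
    exact_mod_cast e3

theorem divs {A x C : ℕ} {σ : List ℕ} (hCA : ChainAlg)
    (hPS : ∀ (Fs : Finset (ℕ × ℕ)) (X : ℕ) (S : Finset ℕ),
      Fs.Nonempty → (Fs.card : ℝ) ≤ (ll x) ^ (A + 1) →
      (∀ f ∈ Fs, 1 ≤ f.1 ∧ f.1 ≤ x ^ 2 ∧ f.2 ≤ x ^ 2) →
      (∀ f ∈ Fs, ∀ g ∈ Fs, f ≠ g → f.1 * g.2 ≠ g.1 * f.2) →
      (x : ℝ) ^ ((1 : ℝ) / 20) ≤ X →
      (∀ n ∈ S, n ≤ X ∧ ∀ f ∈ Fs, (f.1 * n + f.2).Prime ∧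
        (x : ℝ) ^ ((1 : ℝ) / 60) ≤ ((f.1 * n + f.2 : ℕ) : ℝ)) →
      (S.card : ℝ) ≤ X * ((ll x) ^ C / Real.log x) ^ Fs.card)
    (hx : Big A x) (hσ : ∀ m ∈ σ, 1 ≤ m)
    (hc : (σ.prod : ℝ) ≤ (x : ℝ) ^ ((1 : ℝ) / 100)) (hl : (σ.length : ℝ) ≤ (ll x) ^ A)
    (d : ℕ) (S : Finset ℕ) (hd : 1 ≤ d) (hdx : (d : ℝ) ≤ (x : ℝ) ^ ((9 : ℝ) / 10))
    (hS : S ⊆ NS x σ) (hSd : ∀ n ∈ S, d ∣ n) :
    (S.card : ℝ) ≤ ((ll x) ^ C / Real.log x) ^ (σ.length + 1) * ((x : ℝ) / σ.prod) /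
      d.totient := by
  classical
  have hb := basic hx hσ hc
  have hx0 : (0 : ℝ) < x := lt_of_lt_of_le one_pos hx.x1
  have hc0 : (0 : ℝ) < σ.prod := by linarith [hb.c1]
  have hd0 : (0 : ℝ) < d := by exact_mod_cast hd
  have hs := hx.s2
  have hL : 0 ≤ Real.log x := Real.log_nonneg hx.x1
  have hr := rng hCA hx hσ hc hl
  set X' : ℕ := ⌊(x : ℝ) / σ.prod / d⌋₊ with hX'
  have hcardS : (S.image (fun n => n / d)).card = S.card := by
    refine Finset.card_image_of_injOn fun n hn m hm hnm => ?_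
    obtain ⟨k, hk⟩ := hSd n hn
    obtain ⟨l, hl⟩ := hSd m hm
    rw [hk, hl, Nat.mul_div_cancel_left _ (by omega), Nat.mul_div_cancel_left _ (by omega)] at hnm
    rw [hk, hl, hnm]
  have hcx : σ.prod ≤ x := by
    have : (σ.prod : ℝ) ≤ x := by
      refine hc.trans ?_
      calc (x : ℝ) ^ ((1 : ℝ) / 100) ≤ (x : ℝ) ^ (1 : ℝ) :=
            Real.rpow_le_rpow_of_exponent_le hx.x1 (by norm_num)
        _ = x := Real.rpow_one _
    exact_mod_cast this
  have hx99 : (x : ℝ) ^ ((99 : ℝ) / 100) ≤ x := by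
    calc (x : ℝ) ^ ((99 : ℝ) / 100) ≤ (x : ℝ) ^ (1 : ℝ) :=
          Real.rpow_le_rpow_of_exponent_le hx.x1 (by norm_num)
      _ = x := Real.rpow_one _
  have hlx : σ.length + 1 ≤ x := by
    have h1 := hx.f1
    have : ((σ.length + 1 : ℕ) : ℝ) ≤ x := by
      push_cast
      linarith
    exact_mod_cast this
  have hdx' : σ.prod * d ≤ x := by
    have : (σ.prod : ℝ) * d ≤ x := by
      calc (σ.prod : ℝ) * d ≤ (x : ℝ) ^ ((1 : ℝ) / 100) * (x : ℝ) ^ ((9 : ℝ) / 10) :=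
            mul_le_mul hc hdx hd0.le (Real.rpow_nonneg hx0.le _)
        _ = (x : ℝ) ^ ((91 : ℝ) / 100) := by rw [← Real.rpow_add hx0]; norm_num
        _ ≤ (x : ℝ) ^ (1 : ℝ) := Real.rpow_le_rpow_of_exponent_le hx.x1 (by norm_num)
        _ = x := Real.rpow_one _
    exact_mod_cast this
  have hx1' : 1 ≤ x := by exact_mod_cast hx.x1
  have hmain := hPS (forms σ d) X' (S.image (fun n => n / d)) ?_ ?_ ?_ (forms_ne hCA hσ hd) ?_ ?_
  · rw [hcardS, forms_card hCA hσ] at hmain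
    refine hmain.trans ?_
    have hD : 0 ≤ ((ll x) ^ C / Real.log x) ^ (σ.length + 1) :=
      pow_nonneg (div_nonneg (pow_nonneg (by linarith) _) hL) _
    have h1 : (X' : ℝ) ≤ (x : ℝ) / σ.prod / d := Nat.floor_le (by positivity)
    have htot : (0 : ℝ) < d.totient := by exact_mod_cast Nat.totient_pos.mpr (by omega)
    have h2 : (x : ℝ) / σ.prod / d ≤ (x : ℝ) / σ.prod / d.totient := by
      refine div_le_div_of_nonneg_left (by positivity) htot ?_
      exact_mod_cast Nat.totient_le d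
    calc (X' : ℝ) * ((ll x) ^ C / Real.log x) ^ (σ.length + 1)
        ≤ ((x : ℝ) / σ.prod / d.totient) * ((ll x) ^ C / Real.log x) ^ (σ.length + 1) :=
          mul_le_mul_of_nonneg_right (h1.trans h2) hD
      _ = _ := by ring
  · rw [← Finset.card_pos, forms_card hCA hσ]; omega
  · rw [forms_card hCA hσ]
    push_cast
    have h1 : (1 : ℝ) ≤ (ll x) ^ A := one_le_pow₀ (by linarith)
    calc (σ.length : ℝ) + 1 ≤ (ll x) ^ A + (ll x) ^ A := by linarith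
      _ = (ll x) ^ A * 2 := by ring
      _ ≤ (ll x) ^ A * ll x := mul_le_mul_of_nonneg_left hs (by linarith)
      _ = _ := (pow_succ _ _).symm
  · intro f hf
    simp only [forms, Finset.mem_image, Finset.mem_range] at hf
    obtain ⟨i, hi, rfl⟩ := hf
    have hp1 := one_le_prod _ (drop_ge hσ i)
    have hp2 := drop_prod_le hCA hσ (i := i) (by omega)
    have hp3 := hCA.2.1 _ (drop_ge hσ i)
    rw [List.length_drop] at hp3
    refine ⟨Nat.mul_le_mul hp1 hd, ?_, ?_⟩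
    · calc (σ.drop i).prod * d ≤ σ.prod * d := Nat.mul_le_mul_right _ hp2
        _ ≤ x := hdx'
        _ ≤ x ^ 2 := Nat.le_self_pow (by norm_num) x
    · calc (σ.drop i).prod + up (σ.drop i) 0
          ≤ (σ.drop i).prod + (σ.length - i) * (σ.drop i).prod := by omega
        _ = (σ.length - i + 1) * (σ.drop i).prod := by ring
        _ ≤ x * x := Nat.mul_le_mul (by omega) (hp2.trans hcx)
        _ = x ^ 2 := by ring
  · have h1 : (x : ℝ) ^ ((9 : ℝ) / 100) ≤ (x : ℝ) / σ.prod / d := by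
      rw [le_div_iff₀ hd0]
      calc (x : ℝ) ^ ((9 : ℝ) / 100) * d ≤ (x : ℝ) ^ ((9 : ℝ) / 100) * (x : ℝ) ^ ((9 : ℝ) / 10) :=
            mul_le_mul_of_nonneg_left hdx (Real.rpow_nonneg hx0.le _)
        _ = (x : ℝ) ^ ((99 : ℝ) / 100) := by rw [← Real.rpow_add hx0]; norm_num
        _ ≤ _ := hb.Xge
    have h2 := Nat.lt_floor_add_one ((x : ℝ) / σ.prod / d)
    have h3 := hx.f2
    linarith
  · intro k hk
    rw [Finset.mem_image] at hk
    obtain ⟨n, hn, rfl⟩ := hk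
    obtain ⟨k, hk⟩ := hSd n hn
    have hkd : n / d = k := by rw [hk, Nat.mul_div_cancel_left _ (by omega)]
    rw [hkd]
    obtain ⟨g1, g2, g3, g4, g5⟩ := mem_NS (hS hn)
    have hrn := hr n (hS hn)
    refine ⟨?_, ?_⟩
    · rw [hX']
      refine Nat.le_floor ?_
      rw [le_div_iff₀ hd0]
      have : (k : ℝ) * d = n := by rw [hk]; push_cast; ring
      rw [this]
      exact hrn.2
    · intro f hf
      simp only [forms, Finset.mem_image, Finset.mem_range] at hf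
      obtain ⟨i, hi, rfl⟩ := hf
      have hval : (σ.drop i).prod * d * k + ((σ.drop i).prod + up (σ.drop i) 0) =
          up (σ.drop i) (n + 1) := by
        rw [hCA.1 (σ.drop i) (n + 1), hk]
        ring
      simp only
      rw [hval]
      refine ⟨(hCA.2.2.2 σ (n + 1)).mp g3 _ (mem_tails_drop σ i), ?_⟩
      have hp1 := one_le_prod _ (drop_ge hσ i)
      have h1 : n + 1 ≤ up (σ.drop i) (n + 1) := by
        rw [hCA.1 (σ.drop i) (n + 1)]
        have := Nat.mul_le_mul_right (n + 1) hp1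
        omega
      have h2 : ((n : ℝ) + 1) ≤ ((up (σ.drop i) (n + 1) : ℕ) : ℝ) := by exact_mod_cast h1
      have h3 := hx.f3
      have h4 := hb.Xge
      linarith [hrn.1]

/-- consequence of CLC -/
theorem clc_use {A x C : ℕ} {σ : List ℕ} (hCA : ChainAlg)
    (hCLC : ∀ (σ : List ℕ) (a : ℕ) (Ms : Finset ℕ) (Y μ : ℝ) (E : Finset ℕ) (T : Finset (ℕ × ℕ)),
      (σ.length : ℝ) ≤ (ll x) ^ A → (∀ m ∈ σ, 1 ≤ m) → 1 ≤ a → (∀ m ∈ Ms, 1 ≤ m) →
      (x : ℝ) ^ ((1 : ℝ) / 4) ≤ Y → Y ≤ x →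
      (∀ q ∈ E, q.Prime ∧ (x : ℝ) ^ ((1 : ℝ) / 5) ≤ q ∧ (q : ℝ) ≤ 2 * Y) →
      Real.exp (-(ll x) ^ A) ≤ μ → (E.card : ℝ) ≤ μ * Y / Real.log x →
      (∀ t ∈ T, t.1 ∈ E ∧ t.2 ∈ Ms ∧ CP σ (a * t.2 * t.1 + 1) ∧ up σ (a * t.2 * t.1 + 1) ≤ x) →
      (T.card : ℝ) ≤ μ * (Y / Real.log x) *
        ((ll x) ^ C + (Ms.card : ℝ) * ((ll x) ^ C / Real.log x) ^ (σ.length + 1)))
    (hx : Big A x) (hσ : ∀ m ∈ σ, 1 ≤ m)
    (hc : (σ.prod : ℝ) ≤ (x : ℝ) ^ ((1 : ℝ) / 100)) (hl : (σ.length : ℝ) ≤ (ll x) ^ A)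
    (a M : ℕ) (μ : ℝ) (Ms E S : Finset ℕ) (ha : 1 ≤ a) (hM : 1 ≤ M)
    (haM : ((a : ℝ) * M) ≤ (x : ℝ) ^ ((13 : ℝ) / 20)) (hμ : Real.exp (-(ll x) ^ A) ≤ μ)
    (hMs : ∀ m ∈ Ms, 1 ≤ m)
    (hE : ∀ q ∈ E, q.Prime ∧ (x : ℝ) / σ.prod / (4 * (a * M)) < q ∧
      (q : ℝ) ≤ 2 * ((x : ℝ) / σ.prod / (a * M)))
    (hEc : (E.card : ℝ) ≤ μ * ((x : ℝ) / σ.prod / (a * M)) / Real.log x) (hS : S ⊆ NS x σ)
    (hSf : ∀ n ∈ S, ∃ m q : ℕ, m ∈ Ms ∧ q ∈ E ∧ n = a * m * q) :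
    (S.card : ℝ) ≤ μ * ((x : ℝ) / σ.prod / (a * M) / Real.log x) *
        ((ll x) ^ C + (Ms.card : ℝ) * ((ll x) ^ C / Real.log x) ^ (σ.length + 1)) := by
  classical
  have hb := basic hx hσ hc
  have hx0 : (0 : ℝ) < x := lt_of_lt_of_le one_pos hx.x1
  have haM1 : (1 : ℝ) ≤ (a : ℝ) * M := by
    have : 1 ≤ a * M := Nat.mul_le_mul ha hM
    exact_mod_cast this
  have hY : (x : ℝ) ^ ((34 : ℝ) / 100) ≤ (x : ℝ) / σ.prod / (a * M) := by
    rw [le_div_iff₀ (by linarith)]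
    calc (x : ℝ) ^ ((34 : ℝ) / 100) * (a * M)
        ≤ (x : ℝ) ^ ((34 : ℝ) / 100) * (x : ℝ) ^ ((13 : ℝ) / 20) :=
          mul_le_mul_of_nonneg_left haM (Real.rpow_nonneg hx0.le _)
      _ = (x : ℝ) ^ ((99 : ℝ) / 100) := by rw [← Real.rpow_add hx0]; norm_num
      _ ≤ _ := hb.Xge
  choose! m q hm hq hn using hSf
  have hcardS : (S.image (fun n => (q n, m n))).card = S.card := by
    refine Finset.card_image_of_injOn fun n hn1 k hk hnk => ?_
    simp only [Prod.mk.injEq] at hnk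
    rw [hn n hn1, hn k hk, hnk.1, hnk.2]
  rw [← hcardS]
  refine hCLC σ a Ms _ μ E _ hl hσ ha hMs ?_ ?_ ?_ hμ hEc ?_
  · refine le_trans ?_ hY
    exact Real.rpow_le_rpow_of_exponent_le hx.x1 (by norm_num)
  · refine (div_le_self ?_ haM1).trans hb.Xle
    have := hb.c1
    positivity
  · intro l hl
    obtain ⟨h1, h2, h3⟩ := hE l hl
    refine ⟨h1, ?_, h3⟩
    have h4 := hx.f4
    have h5 : (x : ℝ) / σ.prod / (4 * (a * M)) = (x : ℝ) / σ.prod / (a * M) / 4 := by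
      rw [mul_comm (4 : ℝ), ← div_div]
    rw [h5] at h2
    linarith
  · intro t ht
    rw [Finset.mem_image] at ht
    obtain ⟨n, hnS, rfl⟩ := ht
    obtain ⟨g1, g2, g3, g4, g5⟩ := mem_NS (hS hnS)
    refine ⟨hq n hnS, hm n hnS, ?_, ?_⟩
    · simp only
      rw [← hn n hnS]; exact g3
    · simp only
      rw [← hn n hnS]; exact g5

theorem admChain (hPS : PS) (hCLC : CLC) (hCA : ChainAlg) : AdmChain := by
  intro A
  obtain ⟨C1, X1, h1⟩ := hPS (A + 1)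
  obtain ⟨C2, X2, h2⟩ := hCLC A
  obtain ⟨X3, h3⟩ := exists_big A
  refine ⟨max C1 C2 + 1, A + 2, max X1 (max X2 X3), ?_⟩
  intro x M1 σ hx hM1 hσn hl hσ hc
  have hb := h3 x ((le_max_right _ _).trans ((le_max_right _ _).trans hx))
  have h1' := h1 x ((le_max_left _ _).trans hx)
  have h2' := h2 x ((le_max_left _ _).trans ((le_max_right _ _).trans hx))
  have hbas := basic hb hσ hc
  have hs := hb.s2
  have hs1 : 1 ≤ ll x := by linarith
  have hs0 : 0 ≤ ll x := by linarith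
  have hL0 : 0 ≤ Real.log x := Real.log_nonneg hb.x1
  have hL : 0 < Real.log x := by
    rcases hL0.eq_or_lt with h | h
    · exfalso
      unfold ll at hs
      rw [← h, Real.log_zero] at hs
      linarith
    · exact h
  have hLe : Real.log x = Real.exp (ll x) := by
    unfold ll
    rw [Real.exp_log hL]
  have hx0 : (0 : ℝ) < x := lt_of_lt_of_le one_pos hb.x1
  have hc0 : (0 : ℝ) < σ.prod := by linarith [hbas.c1]
  have hX0 : 0 ≤ (x : ℝ) / σ.prod := by positivity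
  -- monotonicity in the exponent
  have hmono : ∀ C : ℕ, C ≤ max C1 C2 →
      ((ll x) ^ C / Real.log x) ^ (σ.length + 1) ≤
        ((ll x) ^ (max C1 C2 + 1) / Real.log x) ^ (σ.length + 1) := by
    intro C hC
    refine pow_le_pow_left₀ (by positivity) ?_ _
    refine div_le_div_of_nonneg_right ?_ hL0
    exact pow_le_pow_right₀ hs1 (by omega)
  have hmono2 : ∀ C : ℕ, C ≤ max C1 C2 → 2 * ((ll x) ^ C / Real.log x) ^ (σ.length + 1) ≤
        ((ll x) ^ (max C1 C2 + 1) / Real.log x) ^ (σ.length + 1) := by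
    intro C hC
    have h4 : ((ll x) ^ (C + 1) / Real.log x) ^ (σ.length + 1) ≤
        ((ll x) ^ (max C1 C2 + 1) / Real.log x) ^ (σ.length + 1) := by
      refine pow_le_pow_left₀ (by positivity) ?_ _
      refine div_le_div_of_nonneg_right ?_ hL0
      exact pow_le_pow_right₀ hs1 (by omega)
    refine le_trans ?_ h4
    have h5 : ((ll x) ^ (C + 1) / Real.log x) ^ (σ.length + 1) =
        (ll x) ^ (σ.length + 1) * ((ll x) ^ C / Real.log x) ^ (σ.length + 1) := by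
      rw [← mul_pow]
      congr 1
      rw [pow_succ]
      ring
    rw [h5]
    refine mul_le_mul_of_nonneg_right ?_ (by positivity)
    calc (2 : ℝ) ≤ ll x := hs
      _ ≤ (ll x) ^ (σ.length + 1) := le_self_pow₀ hs1 (by omega)
  have hD0 : 0 ≤ ((ll x) ^ (max C1 C2 + 1) / Real.log x) ^ (σ.length + 1) := by positivity
  refine ⟨rng hCA hb hσ hc hl, ?_, ?_, ?_⟩
  · intro d S hd hdx hS hSd
    refine (divs hCA h1' hb hσ hc hl d S hd hdx hS hSd).trans ?_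
    refine div_le_div_of_nonneg_right ?_ (Nat.cast_nonneg _)
    exact mul_le_mul_of_nonneg_right (hmono C1 (le_max_left _ _)) hX0
  · intro a M μ E S ha hM haM hμ hE hEc hS hSf
    have hexp : (1 : ℝ) ≤ Real.exp ((ll x) ^ (A + 2)) := Real.one_le_exp (by positivity)
    have hM1' : (1 : ℝ) ≤ M1 := hexp.trans hM1
    have hM1n : 1 ≤ M1 := by exact_mod_cast hM1'
    have ha1 : 1 ≤ a := by
      rcases ha with rfl | ha
      · exact le_rfl
      · exact hM1n.trans ha.2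
    have hMn : 1 ≤ M := hM1n.trans hM
    have hMr : (0 : ℝ) < M := by exact_mod_cast hMn
    have har : (0 : ℝ) < a := by exact_mod_cast ha1
    have hμ0 : 0 < μ := (Real.exp_pos _).trans_le hμ
    have h4 := clc_use hCA h2' hb hσ hc hl a M μ (Finset.Ioc (M / 2) M) E S ha1 hMn haM hμ
      (fun m hm => by rw [Finset.mem_Ioc] at hm; omega) hE hEc hS
      (fun n hn => by
        obtain ⟨m, q, e1, e2, e3, e4⟩ := hSf n hn
        exact ⟨m, q, Finset.mem_Ioc.mpr ⟨e1, e2⟩, e3, e4⟩)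
    refine h4.trans ?_
    have hcard : ((Finset.Ioc (M / 2) M).card : ℝ) ≤ M := by
      rw [Nat.card_Ioc]
      exact_mod_cast Nat.sub_le _ _
    -- `s^C2 ≤ M (s^C2/L)^(r+1)`
    have h5 : (ll x) ^ C2 ≤ M * ((ll x) ^ C2 / Real.log x) ^ (σ.length + 1) := by
      have h6 : (Real.log x) ^ (σ.length + 1) ≤ M := by
        have h7 : (Real.log x) ^ (σ.length + 1) = Real.exp ((σ.length + 1 : ℕ) * ll x) := by
          rw [Real.exp_nat_mul, ← hLe]
        rw [h7]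
        refine le_trans (Real.exp_le_exp.mpr ?_) (hM1.trans (by exact_mod_cast hM))
        push_cast
        have h8 : (1 : ℝ) ≤ (ll x) ^ A := one_le_pow₀ hs1
        calc ((σ.length : ℝ) + 1) * ll x ≤ ((ll x) ^ A * ll x) * ll x := by
              refine mul_le_mul_of_nonneg_right ?_ hs0
              nlinarith
          _ = (ll x) ^ (A + 2) := by ring
      rw [div_pow]
      have h9 : (ll x) ^ C2 ≤ ((ll x) ^ C2) ^ (σ.length + 1) :=
        le_self_pow₀ (one_le_pow₀ hs1) (by omega)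
      have hLp : 0 < (Real.log x) ^ (σ.length + 1) := pow_pos hL _
      rw [← mul_div_assoc, le_div_iff₀ hLp, mul_comm (M : ℝ)]
      exact mul_le_mul h9 h6 hLp.le (by positivity)
    have h6 : (ll x) ^ C2 + ((Finset.Ioc (M / 2) M).card : ℝ) *
        ((ll x) ^ C2 / Real.log x) ^ (σ.length + 1) ≤
        M * ((ll x) ^ (max C1 C2 + 1) / Real.log x) ^ (σ.length + 1) := by
      have h7 : ((Finset.Ioc (M / 2) M).card : ℝ) * ((ll x) ^ C2 / Real.log x) ^ (σ.length + 1) ≤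
          M * ((ll x) ^ C2 / Real.log x) ^ (σ.length + 1) :=
        mul_le_mul_of_nonneg_right hcard (by positivity)
      have h8 := mul_le_mul_of_nonneg_left (hmono2 C2 (le_max_right _ _)) hMr.le
      linarith
    have hlog : (1 : ℝ) ≤ 1 + max 0 (-Real.log μ) := by
      have := le_max_left 0 (-Real.log μ)
      linarith
    calc μ * ((x : ℝ) / σ.prod / (a * M) / Real.log x) *
          ((ll x) ^ C2 + ((Finset.Ioc (M / 2) M).card : ℝ) *
            ((ll x) ^ C2 / Real.log x) ^ (σ.length + 1))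
        ≤ μ * ((x : ℝ) / σ.prod / (a * M) / Real.log x) *
          (M * ((ll x) ^ (max C1 C2 + 1) / Real.log x) ^ (σ.length + 1)) :=
          mul_le_mul_of_nonneg_left h6 (by positivity)
      _ = ((ll x) ^ (max C1 C2 + 1) / Real.log x) ^ (σ.length + 1) * μ * 1 *
            ((x : ℝ) / σ.prod) / (a * Real.log x) := by
          field_simp
      _ ≤ ((ll x) ^ (max C1 C2 + 1) / Real.log x) ^ (σ.length + 1) * μ *
            (1 + max 0 (-Real.log μ)) * ((x : ℝ) / σ.prod) / (a * Real.log x) := by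
          gcongr
  · intro M μ Ms E S hM hMx hMs hμ hE hEc hS hSf
    have hMr : (0 : ℝ) < M := by exact_mod_cast hM
    have hμ0 : 0 < μ := (Real.exp_pos _).trans_le hμ
    have h4 := clc_use hCA h2' hb hσ hc hl 1 M μ Ms E S le_rfl hM ?_ hμ
      (fun m hm => by have := (hMs m hm).1; omega) ?_ ?_ hS ?_
    · refine h4.trans ?_
      rw [Nat.cast_one, one_mul]
      have h5 : (ll x) ^ C2 ≤ (ll x) ^ (max C1 C2 + 1) :=
        pow_le_pow_right₀ hs1 ((le_max_right _ _).trans (Nat.le_succ _))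
      have h6 : (1 : ℝ) ≤ (ll x) ^ (max C1 C2 + 1) := one_le_pow₀ hs1
      have h7 : (Ms.card : ℝ) * ((ll x) ^ C2 / Real.log x) ^ (σ.length + 1) ≤
          (Ms.card : ℝ) * ((ll x) ^ (max C1 C2 + 1) / Real.log x) ^ (σ.length + 1) *
            (ll x) ^ (max C1 C2 + 1) := by
        calc (Ms.card : ℝ) * ((ll x) ^ C2 / Real.log x) ^ (σ.length + 1)
            ≤ (Ms.card : ℝ) * ((ll x) ^ (max C1 C2 + 1) / Real.log x) ^ (σ.length + 1) :=
              mul_le_mul_of_nonneg_left (hmono C2 (le_max_right _ _)) (Nat.cast_nonneg _)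
          _ ≤ _ := le_mul_of_one_le_right (by positivity) h6
      rw [div_div ((x : ℝ) / σ.prod)]
      exact mul_le_mul_of_nonneg_left (add_le_add h5 h7) (by positivity)
    · rw [Nat.cast_one, one_mul]
      refine hMx.trans ?_
      exact Real.rpow_le_rpow_of_exponent_le hb.x1 (by norm_num)
    · intro q hq
      rw [Nat.cast_one, one_mul]
      exact hE q hq
    · rw [Nat.cast_one, one_mul]
      exact hEc
    · intro n hn
      obtain ⟨m, q, e1, e2, e3⟩ := hSf n hn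
      exact ⟨m, q, e1, e2, by rw [one_mul]; exact e3⟩

end

end Pool.Agent.Helper67.TOT
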